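import Pool.Agent.K1H27.BN.Stm
import Pool.Agent.K1H31.SN.Invp
import Pool.Agent.Y487.NK.SEL
import Pool.Agent.Y604.NK.MEAS

/-!
# Project BN: generic coupling constants
-/

set_option autoImplicit false

namespace Pool.Agent.K1H48.BN

open MeasureTheory Set Metric Filter Topology
open scoped ENNReal NNReal
open Pool.Agent.Y283.NK (lm LogBd)
open Pool.Agent.Y604.NK (meas_lm)
open Pool.Agent.K1H27.SN (fd col)
open Pool.Agent.K1H27.BN (sec S_GEN)

/-- powers with exponent at most one are subadditive -/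
theorem rpow_sum_le {ι : Type} (s : Finset ι) (x : ι → ℝ≥0∞) {q : ℝ} (h0 : 0 < q) (h1 : q ≤ 1) :
    (∑ i ∈ s, x i) ^ q ≤ ∑ i ∈ s, x i ^ q := by
  classical
  induction s using Finset.induction_on with
  | empty => simp [ENNReal.zero_rpow_of_pos h0]
  | insert a s ha ih =>
    rw [Finset.sum_insert ha, Finset.sum_insert ha]
    exact (ENNReal.rpow_add_le_add_rpow _ _ h0.le h1).trans (by gcongr)

theorem col_le {n : ℕ} (X : Matrix (Fin n) (Fin n) ℂ) (j : Fin n) {p : ℝ} (h0 : 0 < p)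
    (h2 : p ≤ 2) : ENNReal.ofReal (col X j ^ p) ≤ ∑ i, ‖X i j‖ₑ ^ p := by
  have e0 : 0 ≤ ∑ i, ‖X i j‖ ^ 2 := Finset.sum_nonneg fun i _ => by positivity
  have e1 : ENNReal.ofReal (col X j ^ p) = (∑ i, ‖X i j‖ₑ ^ 2) ^ (p / 2) := by
    unfold col
    rw [Real.sqrt_eq_rpow, ← Real.rpow_mul e0, show (1 / 2 * p : ℝ) = p / 2 by ring,
      ← ENNReal.ofReal_rpow_of_nonneg e0 (by positivity),
      ENNReal.ofReal_sum_of_nonneg fun i _ => by positivity]
    congr 1
    refine Finset.sum_congr rfl fun i _ => ?_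
    rw [ENNReal.ofReal_pow (norm_nonneg _), ofReal_norm]
  rw [e1]
  refine (rpow_sum_le _ _ (by positivity) (by linarith)).trans (le_of_eq ?_)
  refine Finset.sum_congr rfl fun i _ => ?_
  rw [← ENNReal.rpow_natCast, ← ENNReal.rpow_mul]
  congr 1
  push_cast
  ring

theorem cols_le (F : ℕ → ℕ → ℂ) (n : ℕ) {p : ℝ} (h0 : 0 < p) (h2 : p ≤ 2) :
    ENNReal.ofReal (∑ j, col (sec F n) j ^ p) ≤ ∑' i, ∑' j, ‖F i j‖ₑ ^ p := by
  have hc : ∀ j, 0 ≤ col (sec F n) j := fun j => Real.sqrt_nonneg _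
  rw [ENNReal.ofReal_sum_of_nonneg fun j _ => Real.rpow_nonneg (hc j) _]
  calc ∑ j, ENNReal.ofReal (col (sec F n) j ^ p) ≤ ∑ j, ∑ i, ‖sec F n i j‖ₑ ^ p :=
        Finset.sum_le_sum fun j _ => col_le _ j h0 h2
    _ = ∑ i : Fin n, ∑ j : Fin n, ‖F i j‖ₑ ^ p := by
        rw [Finset.sum_comm]
        rfl
    _ = ∑ i ∈ Finset.range n, ∑ j ∈ Finset.range n, ‖F i j‖ₑ ^ p := by
        rw [Finset.sum_range]
        refine Finset.sum_congr rfl fun i _ => ?_
        rw [Finset.sum_range]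
    _ ≤ ∑ i ∈ Finset.range n, ∑' j, ‖F i j‖ₑ ^ p :=
        Finset.sum_le_sum fun i _ => ENNReal.sum_le_tsum _
    _ ≤ _ := ENNReal.sum_le_tsum _

theorem meas_fd {F : ℂ → ℕ → ℕ → ℂ} (hF : ∀ i j, Measurable fun z => F z i j) (n : ℕ) :
    Measurable (fun p : ℂ × ℂ => fd (sec (F p.1) n) p.2) := by
  unfold fd
  refine Measurable.mul ?_ (Complex.measurable_exp.comp (measurable_snd.mul ?_))
  · simp only [Matrix.det_apply']
    refine Finset.measurable_fun_sum _ fun σ _ => ?_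
    refine Measurable.const_mul ?_ _
    refine Finset.measurable_fun_prod _ fun i _ => ?_
    have h1 : (fun p : ℂ × ℂ => (1 - p.2 • sec (F p.1) n) (σ i) i) =
        fun p : ℂ × ℂ => (1 : Matrix (Fin n) (Fin n) ℂ) (σ i) i - p.2 * F p.1 (σ i) i := by
      funext p
      simp [sec]
    rw [h1]
    exact measurable_const.sub (measurable_snd.mul ((hF _ _).comp measurable_fst))
  · unfold Matrix.trace
    exact Finset.measurable_fun_sum _ fun i _ => (hF i i).comp measurable_fst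

/-- almost every coupling is good -/
theorem t_GEN : S_GEN := by
  intro p hp1 hp2 F hF hA m _ hm
  have hp0 : 0 < p := by linarith
  set A : ℂ → ℝ≥0∞ := fun z => ∑' i, ∑' j, ‖F z i j‖ₑ ^ p with hAdef
  have hAm : Measurable A := Measurable.tsum fun i => Measurable.tsum fun j =>
    (hF i j).enorm.pow_const p
  have main : ∀ R R' : ℝ, ∀ᵐ t ∂(m.restrict (ball (0:ℂ) R)), ∃ (I : Set ℕ) (B : ℝ≥0),
      I.Infinite ∧ ∀ n ∈ I, ∫⁻ z in ball (0:ℂ) R', lm ‖fd (sec (F z) n) t‖ ≤ B := by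
    intro R R'
    obtain ⟨C, hCC⟩ := Pool.Agent.K1H31.SN.t_INVP.2 m hm R
    have key : ∀ (n : ℕ) (z : ℂ), ∫⁻ t in ball (0:ℂ) R, lm ‖fd (sec (F z) n) t‖ ∂m ≤
        (C + 1) * (A z + 1) := by
      intro n z
      by_cases h1 : A z = ⊤
      · rw [h1, top_add, ENNReal.mul_top (by simp)]
        exact le_top
      have hcols : ∑ j, col (sec (F z) n) j ^ p ≤ (A z).toReal :=
        (ENNReal.ofReal_le_iff_le_toReal h1).1 (cols_le (F z) n hp0 hp2.le)
      refine (hCC n _ p _ hp1.le hp2.le hcols).trans ?_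
      rw [ENNReal.ofReal_add ENNReal.toReal_nonneg zero_le_one, ENNReal.ofReal_toReal h1,
        ENNReal.ofReal_one]
      exact mul_le_mul' le_self_add le_rfl
    have hfin : ∫⁻ z in ball (0:ℂ) R', (C + 1) * (A z + 1) ≠ ⊤ := by
      rw [lintegral_const_mul _ (hAm.add_const _), lintegral_add_left hAm]
      refine ENNReal.mul_ne_top (by simp) (ENNReal.add_ne_top.2 ⟨hA R', ?_⟩)
      rw [lintegral_const, Measure.restrict_apply MeasurableSet.univ, univ_inter, one_mul]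
      exact measure_ball_lt_top.ne
    obtain ⟨C', hC'⟩ : ∃ C' : ℝ≥0, (C' : ℝ≥0∞) = _ := ⟨_, ENNReal.coe_toNNReal hfin⟩
    refine Pool.Agent.Y487.NK.main_sel m R R' (fun n z t => lm ‖fd (sec (F z) n) t‖) C'
      (fun n => ?_) (fun n => ?_)
    · exact meas_lm.comp (meas_fd hF n).norm
    · rw [hC']
      exact lintegral_mono fun z => key n z
  have hall : ∀ᵐ t ∂m, ∀ k l : ℕ, t ∈ ball (0:ℂ) k → ∃ (I : Set ℕ) (B : ℝ≥0), I.Infinite ∧
      ∀ n ∈ I, ∫⁻ z in ball (0:ℂ) l, lm ‖fd (sec (F z) n) t‖ ≤ B := by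
    rw [ae_all_iff]
    intro k
    rw [ae_all_iff]
    intro l
    rw [← ae_restrict_iff' measurableSet_ball]
    exact main k l
  filter_upwards [hall] with t ht l
  obtain ⟨k, hk⟩ := exists_nat_gt ‖t‖
  exact ht k l (by rw [mem_ball_zero_iff]; exact hk)

end Pool.Agent.K1H48.BN
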